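import Mathlib

set_option autoImplicit false
set_option synthInstance.maxSize 100000
set_option synthInstance.maxHeartbeats 4000000
set_option maxRecDepth 100000

namespace Pool.Agent.Results.MP_3ca1b2_co.Counter
open Equiv

section
variable {k n : ℕ}

/-- a permutation of `{0, …, k - 1}` acting on all colours, fixing those `≥ k` -/
def act (π : Perm (Fin k)) (x : ℕ) : ℕ := if h : x < k then π ⟨x, h⟩ else x

/-- `σ` is an `S`-signature of `G` -/
def Sig (S : Set (Perm (Fin k))) (G : SimpleGraph (Fin n)) (σ : Fin n → Fin n → Perm (Fin k)) : Prop :=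
  ∀ v w, G.Adj v w → σ v w ∈ S ∧ σ w v = (σ v w)⁻¹

/-- `(G, σ)` has a colouring with colours `0, …, j - 1` -/
def Col (G : SimpleGraph (Fin n)) (σ : Fin n → Fin n → Perm (Fin k)) (j : ℕ) : Prop :=
  ∃ c : Fin n → ℕ, (∀ v, c v < j) ∧ ∀ v w, G.Adj v w → act (σ v w) (c v) ≠ c w

/-- the chromatic spectrum -/
def Spec (S : Set (Perm (Fin k))) (G : SimpleGraph (Fin n)) : Set ℕ :=
  {m | ∃ σ, Sig S G σ ∧ IsLeast {j | 0 < j ∧ Col G σ j} m}
end

@[irreducible] def t (l x : ℕ) : ℕ := (15644359240235325073601 >>> (3 * (5 * l + x))) % 8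

def g3 (o a b c : ℕ) : Bool := [o, o + 1].any fun x => [o, o + 1].any fun y => t a x != y &&
  [o, o + 1].any fun z => t b x != z && t c y != z

def g4 (o a b c d e f : ℕ) : Bool := [o, o + 1].any fun x => [o, o + 1].any fun y => t a x != y &&
  [o, o + 1].any fun z => t b x != z && t c y != z &&
  [o, o + 1].any fun w => t d x != w && t e y != w && t f z != w

def al (f : ℕ → Bool) : Bool := f 0 && (f 1 && (f 2 && (f 3 && f 4)))

lemma A {f : ℕ → Bool} (h : al f = true) (l : ℕ) (hl : l < 5) : f l = true := by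
  simp only [al, Bool.and_eq_true] at h
  interval_cases l <;> tauto

lemma O {a b : Bool} (h : (a || b) = true) (ha : a = false) : b = true := by simpa [ha] using h

lemma dfs1 : (al fun l01 => al fun l02 => al fun l12 => g3 2 l01 l02 l12 || (
    al fun l03 => al fun l13 => al fun l23 => g4 2 l01 l02 l12 l03 l13 l23 || (
    g4 0 l01 l02 l12 l03 l13 l23 || (
    al fun l34 => al fun l04 => al fun l14 => g4 2 l01 l03 l13 l04 l14 l34 || (
    g4 0 l01 l03 l13 l04 l14 l34 || (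
    al fun l24 => g4 2 l01 l02 l12 l04 l14 l24 || (
    g4 0 l01 l02 l12 l04 l14 l24 || (
    g4 2 l02 l03 l23 l04 l24 l34 || (
    g4 0 l02 l03 l23 l04 l24 l34 || (
    g4 2 l12 l13 l23 l14 l24 l34 || (
    g4 0 l12 l13 l23 l14 l24 l34 || (
    al fun l35 => al fun l45 => (g3 0 l01 l02 l12 && g3 2 l34 l35 l45) || (
    (g3 0 l34 l35 l45 && g3 2 l01 l02 l12) || (
    al fun l05 => g4 2 l03 l04 l34 l05 l35 l45 || (
    g4 0 l03 l04 l34 l05 l35 l45 || (
    (g3 0 l03 l05 l35 && g3 2 l12 l14 l24) || (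
    (g3 0 l04 l05 l45 && g3 2 l12 l13 l23) || (
    (g3 0 l12 l13 l23 && g3 2 l04 l05 l45) || (
    (g3 0 l12 l14 l24 && g3 2 l03 l05 l35) || (
    al fun l15 => g4 2 l01 l03 l13 l05 l15 l35 || (
    g4 0 l01 l03 l13 l05 l15 l35 || (
    g4 2 l01 l04 l14 l05 l15 l45 || (
    g4 0 l01 l04 l14 l05 l15 l45 || (
    g4 2 l13 l14 l34 l15 l35 l45 || (
    g4 0 l13 l14 l34 l15 l35 l45 || (
    (g3 0 l01 l05 l15 && g3 2 l23 l24 l34) || (
    (g3 0 l02 l03 l23 && g3 2 l14 l15 l45) || (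
    (g3 0 l02 l04 l24 && g3 2 l13 l15 l35) || (
    (g3 0 l13 l15 l35 && g3 2 l02 l04 l24) || (
    (g3 0 l14 l15 l45 && g3 2 l02 l03 l23) || (
    (g3 0 l23 l24 l34 && g3 2 l01 l05 l15) || (
    al fun l25 => g4 2 l01 l02 l12 l05 l15 l25 || (
    g4 0 l01 l02 l12 l05 l15 l25 || (
    g4 2 l02 l03 l23 l05 l25 l35 || (
    g4 0 l02 l03 l23 l05 l25 l35 || (
    g4 2 l02 l04 l24 l05 l25 l45 || (
    g4 0 l02 l04 l24 l05 l25 l45 || (
    g4 2 l12 l13 l23 l15 l25 l35 || (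
    g4 0 l12 l13 l23 l15 l25 l35 || (
    g4 2 l12 l14 l24 l15 l25 l45 || (
    g4 0 l12 l14 l24 l15 l25 l45 || (
    g4 2 l23 l24 l34 l25 l35 l45 || (
    g4 0 l23 l24 l34 l25 l35 l45 || (
    (g3 0 l01 l03 l13 && g3 2 l24 l25 l45) || (
    (g3 0 l01 l04 l14 && g3 2 l23 l25 l35) || (
    (g3 0 l02 l05 l25 && g3 2 l13 l14 l34) || (
    (g3 0 l03 l04 l34 && g3 2 l12 l15 l25) || (
    (g3 0 l12 l15 l25 && g3 2 l03 l04 l34) || (
    (g3 0 l13 l14 l34 && g3 2 l02 l05 l25) || (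
    (g3 0 l23 l25 l35 && g3 2 l01 l04 l14) || (
    (g3 0 l24 l25 l45 && g3 2 l01 l03 l13) || (
    false)))))))))))))))))))))))))))))))))))))))))))))))))))) = true := by
  decide +kernel

lemma dfs2 : (al fun l01 => al fun l02 => al fun l12 => g3 0 l01 l02 l12 || (
    al fun l03 => al fun l13 => g3 0 l01 l03 l13 || (
    al fun l23 => g3 0 l02 l03 l23 || (
    g3 0 l12 l13 l23 || (
    g4 2 l01 l02 l12 l03 l13 l23 || (
    al fun l04 => al fun l14 => g3 0 l01 l04 l14 || (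
    al fun l24 => g3 0 l02 l04 l24 || (
    g3 0 l12 l14 l24 || (
    g4 2 l01 l02 l12 l04 l14 l24 || (
    al fun l34 => g3 0 l03 l04 l34 || (
    g3 0 l13 l14 l34 || (
    g3 0 l23 l24 l34 || (
    g4 2 l01 l03 l13 l04 l14 l34 || (
    g4 2 l02 l03 l23 l04 l24 l34 || (
    g4 2 l12 l13 l23 l14 l24 l34 || (
    al fun l05 => al fun l15 => g3 0 l01 l05 l15 || (
    al fun l25 => g3 0 l02 l05 l25 || (
    g3 0 l12 l15 l25 || (
    g4 2 l01 l02 l12 l05 l15 l25 || (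
    al fun l35 => g3 0 l03 l05 l35 || (
    g3 0 l13 l15 l35 || (
    g3 0 l23 l25 l35 || (
    g4 2 l01 l03 l13 l05 l15 l35 || (
    g4 2 l02 l03 l23 l05 l25 l35 || (
    g4 2 l12 l13 l23 l15 l25 l35 || (
    al fun l45 => g3 0 l04 l05 l45 || (
    g3 0 l14 l15 l45 || (
    g3 0 l24 l25 l45 || (
    g3 0 l34 l35 l45 || (
    g4 2 l01 l04 l14 l05 l15 l45 || (
    g4 2 l02 l04 l24 l05 l25 l45 || (
    g4 2 l03 l04 l34 l05 l35 l45 || (
    g4 2 l12 l14 l24 l15 l25 l45 || (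
    g4 2 l13 l14 l34 l15 l35 l45 || (
    g4 2 l23 l24 l34 l25 l35 l45 || (
    al fun x0 => al fun x1 => t l01 x0 == x1 || (al fun x2 => t l02 x0 == x2 || (t l12 x1 == x2 || (al fun x3 => t l03 x0 == x3 || (t l13 x1 == x3 || (t l23 x2 == x3 || (al fun x4 => t l04 x0 == x4 || (t l14 x1 == x4 || (t l24 x2 == x4 || (t l34 x3 == x4 || (al fun x5 => t l05 x0 == x5 || (t l15 x1 == x5 || (t l25 x2 == x5 || (t l35 x3 == x5 || (t l45 x4 == x5 || (false))))))))))))))))))))))))))))))))))))))))))))))))))) = true := by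
  decide +kernel

def g : Perm (Fin 5) := ⟨![1, 0, 3, 4, 2], ![1, 0, 4, 2, 3], by decide, by decide⟩

def S0 : Set (Perm (Fin 5)) := {π | ∃ l < 5, π = g ^ (l + 1)}

lemma act_t : ∀ l < 5, ∀ x < 5, act (g ^ (l + 1)) x = t l x := by decide +kernel
lemma t_inv : ∀ l < 5, ∀ m < 5, g ^ (m + 1) = (g ^ (l + 1))⁻¹ → ∀ x < 5, t l (t m x) = x := by decide +kernel
lemma c1' : ∀ l < 5, ∀ x < 2, t l x < 2 := by decide +kernel
lemma c2' : ∀ l < 5, ∀ x < 4, 2 ≤ x → 2 ≤ t l x := by decide +kernel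
lemma c1 {l x y : ℕ} (h : l < 5) (hx : x < 2) (hy : 2 ≤ y) : ¬ t l x = y := by have := c1' l h x hx; omega
lemma c2 {l x y : ℕ} (h : l < 5) (hx : x < 4) (hx' : 2 ≤ x) (hy : y < 2) : ¬ t l x = y := by
  have := c2' l h x hx hx'; omega

section
variable {σ : Fin 6 → Fin 6 → Perm (Fin 5)} {s : Fin 6 → Fin 6 → ℕ} (h5 : ∀ a b, s a b < 5)
  (hs : ∀ a b, a ≠ b → σ a b = g ^ (s a b + 1)) (hσ : Sig S0 ⊤ σ) (hn : ¬ Col ⊤ σ 4)
include h5 hs hσ hn

lemma glue (v : Fin 6 → Fin 6) (hv : Function.Injective v) (x : Fin 6 → ℕ) (hx : ∀ i, x i < 4)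
    (h : ∀ i j, i < j → t (s (v i) (v j)) (x i) ≠ x j) : False := by
  let e := Equiv.ofBijective v hv.bijective_of_finite
  refine hn ⟨fun a => x (e.symm a), fun a => hx _, fun a b hab => ?_⟩
  obtain ⟨i, rfl⟩ := e.surjective a
  obtain ⟨j, rfl⟩ := e.surjective b
  simp only [Equiv.symm_apply_apply]
  have hne : v i ≠ v j := hab
  change act (σ (v i) (v j)) _ ≠ _
  rw [hs _ _ hne, act_t _ (h5 _ _) _ (by have := hx i; omega)]
  rcases lt_trichotomy i j with hij | rfl | hij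
  · exact h i j hij
  · exact absurd rfl hne
  · intro h'
    refine h j i hij ?_
    rw [← h']
    refine t_inv _ (h5 _ _) _ (h5 _ _) ?_ _ (by have := hx i; omega)
    rw [← hs _ _ hne, ← hs _ _ hne.symm]
    exact (hσ _ _ hne.symm).2

lemma K (v : Fin 6 → Fin 6) (hv : Function.Injective v) :
    g4 0 (s (v 0) (v 1)) (s (v 0) (v 2)) (s (v 1) (v 2)) (s (v 0) (v 3)) (s (v 1) (v 3)) (s (v 2) (v 3)) = false ∧
    g4 2 (s (v 0) (v 1)) (s (v 0) (v 2)) (s (v 1) (v 2)) (s (v 0) (v 3)) (s (v 1) (v 3)) (s (v 2) (v 3)) = false ∧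
    (g3 0 (s (v 0) (v 1)) (s (v 0) (v 2)) (s (v 1) (v 2)) &&
      g3 2 (s (v 3) (v 4)) (s (v 3) (v 5)) (s (v 4) (v 5))) = false := by
  refine ⟨Bool.eq_false_iff.2 fun h => ?_, Bool.eq_false_iff.2 fun h => ?_, Bool.eq_false_iff.2 fun h => ?_⟩
  all_goals simp only [g3, g4, List.any_eq_true, Bool.and_eq_true, bne_iff_ne, ne_eq, List.mem_cons,
    List.not_mem_nil, or_false] at h
  · obtain ⟨x0, h0, x1, h1, a1, x2, h2, ⟨a2, a3⟩, x3, h3, ⟨a4, a5⟩, a6⟩ := h
    obtain ⟨y, h4, a7⟩ : ∃ y, (y = 2 ∨ y = 3) ∧ ¬ t (s (v 4) (v 5)) 2 = y := by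
      by_cases h : t (s (v 4) (v 5)) 2 = 2
      exacts [⟨3, .inr rfl, by omega⟩, ⟨2, .inl rfl, h⟩]
    refine glue h5 hs hσ hn v hv ![x0, x1, x2, x3, 2, y] (fun i => by fin_cases i <;> simp <;> omega)
      fun i j hij => ?_
    fin_cases i <;> fin_cases j <;> first | exact absurd hij (by decide) | assumption |
      exact c1 (h5 _ _) (by simp; omega) (by simp <;> omega)
  · obtain ⟨x0, h0, x1, h1, a1, x2, h2, ⟨a2, a3⟩, x3, h3, ⟨a4, a5⟩, a6⟩ := h
    obtain ⟨y, h4, a7⟩ : ∃ y, (y = 0 ∨ y = 1) ∧ ¬ t (s (v 4) (v 5)) 0 = y := by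
      by_cases h : t (s (v 4) (v 5)) 0 = 0
      exacts [⟨1, .inr rfl, by omega⟩, ⟨0, .inl rfl, h⟩]
    refine glue h5 hs hσ hn v hv ![x0, x1, x2, x3, 0, y] (fun i => by fin_cases i <;> simp <;> omega)
      fun i j hij => ?_
    fin_cases i <;> fin_cases j <;> first | exact absurd hij (by decide) | assumption |
      exact c2 (h5 _ _) (by simp; omega) (by simp; omega) (by simp <;> omega)
  · obtain ⟨⟨x0, h0, x1, h1, a1, x2, h2, a2, a3⟩, x3, h3, x4, h4, a4, x5, h6, a5, a6⟩ := h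
    refine glue h5 hs hσ hn v hv ![x0, x1, x2, x3, x4, x5] (fun i => by fin_cases i <;> simp <;> omega)
      fun i j hij => ?_
    fin_cases i <;> fin_cases j <;> first | exact absurd hij (by decide) | assumption |
      exact c1 (h5 _ _) (by simp; omega) (by simp; omega)
end

lemma step1 {s : Fin 6 → Fin 6 → ℕ} (h5 : ∀ a b, s a b < 5)
    (K : ∀ v : Fin 6 → Fin 6, Function.Injective v →
    g4 0 (s (v 0) (v 1)) (s (v 0) (v 2)) (s (v 1) (v 2)) (s (v 0) (v 3)) (s (v 1) (v 3)) (s (v 2) (v 3)) = false ∧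
    g4 2 (s (v 0) (v 1)) (s (v 0) (v 2)) (s (v 1) (v 2)) (s (v 0) (v 3)) (s (v 1) (v 3)) (s (v 2) (v 3)) = false ∧
    (g3 0 (s (v 0) (v 1)) (s (v 0) (v 2)) (s (v 1) (v 2)) &&
      g3 2 (s (v 3) (v 4)) (s (v 3) (v 5)) (s (v 4) (v 5))) = false)
    (h0 : g3 2 (s 0 1) (s 0 2) (s 1 2) = false) : False := by
  have h := dfs1
  replace h := A h (s 0 1) (h5 0 1)
  replace h := A h (s 0 2) (h5 0 2)
  replace h := A h (s 1 2) (h5 1 2)
  replace h := O h (h0)
  replace h := A h (s 0 3) (h5 0 3)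
  replace h := A h (s 1 3) (h5 1 3)
  replace h := A h (s 2 3) (h5 2 3)
  replace h := O h ((K ![0, 1, 2, 3, 4, 5] (by decide)).2.1)
  replace h := O h ((K ![0, 1, 2, 3, 4, 5] (by decide)).1)
  replace h := A h (s 3 4) (h5 3 4)
  replace h := A h (s 0 4) (h5 0 4)
  replace h := A h (s 1 4) (h5 1 4)
  replace h := O h ((K ![0, 1, 3, 4, 2, 5] (by decide)).2.1)
  replace h := O h ((K ![0, 1, 3, 4, 2, 5] (by decide)).1)
  replace h := A h (s 2 4) (h5 2 4)
  replace h := O h ((K ![0, 1, 2, 4, 3, 5] (by decide)).2.1)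
  replace h := O h ((K ![0, 1, 2, 4, 3, 5] (by decide)).1)
  replace h := O h ((K ![0, 2, 3, 4, 1, 5] (by decide)).2.1)
  replace h := O h ((K ![0, 2, 3, 4, 1, 5] (by decide)).1)
  replace h := O h ((K ![1, 2, 3, 4, 0, 5] (by decide)).2.1)
  replace h := O h ((K ![1, 2, 3, 4, 0, 5] (by decide)).1)
  replace h := A h (s 3 5) (h5 3 5)
  replace h := A h (s 4 5) (h5 4 5)
  replace h := O h ((K ![0, 1, 2, 3, 4, 5] (by decide)).2.2)
  replace h := O h ((K ![3, 4, 5, 0, 1, 2] (by decide)).2.2)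
  replace h := A h (s 0 5) (h5 0 5)
  replace h := O h ((K ![0, 3, 4, 5, 1, 2] (by decide)).2.1)
  replace h := O h ((K ![0, 3, 4, 5, 1, 2] (by decide)).1)
  replace h := O h ((K ![0, 3, 5, 1, 2, 4] (by decide)).2.2)
  replace h := O h ((K ![0, 4, 5, 1, 2, 3] (by decide)).2.2)
  replace h := O h ((K ![1, 2, 3, 0, 4, 5] (by decide)).2.2)
  replace h := O h ((K ![1, 2, 4, 0, 3, 5] (by decide)).2.2)
  replace h := A h (s 1 5) (h5 1 5)
  replace h := O h ((K ![0, 1, 3, 5, 2, 4] (by decide)).2.1)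
  replace h := O h ((K ![0, 1, 3, 5, 2, 4] (by decide)).1)
  replace h := O h ((K ![0, 1, 4, 5, 2, 3] (by decide)).2.1)
  replace h := O h ((K ![0, 1, 4, 5, 2, 3] (by decide)).1)
  replace h := O h ((K ![1, 3, 4, 5, 0, 2] (by decide)).2.1)
  replace h := O h ((K ![1, 3, 4, 5, 0, 2] (by decide)).1)
  replace h := O h ((K ![0, 1, 5, 2, 3, 4] (by decide)).2.2)
  replace h := O h ((K ![0, 2, 3, 1, 4, 5] (by decide)).2.2)
  replace h := O h ((K ![0, 2, 4, 1, 3, 5] (by decide)).2.2)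
  replace h := O h ((K ![1, 3, 5, 0, 2, 4] (by decide)).2.2)
  replace h := O h ((K ![1, 4, 5, 0, 2, 3] (by decide)).2.2)
  replace h := O h ((K ![2, 3, 4, 0, 1, 5] (by decide)).2.2)
  replace h := A h (s 2 5) (h5 2 5)
  replace h := O h ((K ![0, 1, 2, 5, 3, 4] (by decide)).2.1)
  replace h := O h ((K ![0, 1, 2, 5, 3, 4] (by decide)).1)
  replace h := O h ((K ![0, 2, 3, 5, 1, 4] (by decide)).2.1)
  replace h := O h ((K ![0, 2, 3, 5, 1, 4] (by decide)).1)
  replace h := O h ((K ![0, 2, 4, 5, 1, 3] (by decide)).2.1)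
  replace h := O h ((K ![0, 2, 4, 5, 1, 3] (by decide)).1)
  replace h := O h ((K ![1, 2, 3, 5, 0, 4] (by decide)).2.1)
  replace h := O h ((K ![1, 2, 3, 5, 0, 4] (by decide)).1)
  replace h := O h ((K ![1, 2, 4, 5, 0, 3] (by decide)).2.1)
  replace h := O h ((K ![1, 2, 4, 5, 0, 3] (by decide)).1)
  replace h := O h ((K ![2, 3, 4, 5, 0, 1] (by decide)).2.1)
  replace h := O h ((K ![2, 3, 4, 5, 0, 1] (by decide)).1)
  replace h := O h ((K ![0, 1, 3, 2, 4, 5] (by decide)).2.2)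
  replace h := O h ((K ![0, 1, 4, 2, 3, 5] (by decide)).2.2)
  replace h := O h ((K ![0, 2, 5, 1, 3, 4] (by decide)).2.2)
  replace h := O h ((K ![0, 3, 4, 1, 2, 5] (by decide)).2.2)
  replace h := O h ((K ![1, 2, 5, 0, 3, 4] (by decide)).2.2)
  replace h := O h ((K ![1, 3, 4, 0, 2, 5] (by decide)).2.2)
  replace h := O h ((K ![2, 3, 5, 0, 1, 4] (by decide)).2.2)
  replace h := O h ((K ![2, 4, 5, 0, 1, 3] (by decide)).2.2)
  exact absurd h (by decide)

lemma main {σ : Fin 6 → Fin 6 → Perm (Fin 5)} (hσ : Sig S0 ⊤ σ) (hn : ¬ Col ⊤ σ 4) : ¬ Col ⊤ σ 5 := by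
  have : ∀ a b, ∃ l < 5, a ≠ b → σ a b = g ^ (l + 1) := fun a b => by
    by_cases h : a = b
    · exact ⟨0, by omega, fun h' => absurd h h'⟩
    · obtain ⟨l, h1, h2⟩ := (hσ a b h).1
      exact ⟨l, h1, fun _ => h2⟩
  choose s h5 hs using this
  have K := K h5 hs hσ hn
  have K3 : ∀ v : Fin 6 → Fin 6, Function.Injective v →
      g3 0 (s (v 0) (v 1)) (s (v 0) (v 2)) (s (v 1) (v 2)) = false := fun v hv => by
    have h1 := (K v hv).2.2
    rcases Bool.and_eq_false_iff.1 h1 with h | h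
    · exact h
    · let w : Fin 6 → Fin 6 := v ∘ ![3, 4, 5, 0, 1, 2]
      have hw : Function.Injective w := hv.comp (by decide)
      exact (step1 (s := fun a b => s (w a) (w b)) (fun _ _ => h5 _ _) (fun u hu => K (w ∘ u) (hw.comp hu)) h).elim
  rintro ⟨c, hc, hc'⟩
  have hv : ∀ a b, a ≠ b → (t (s a b) (c a) == c b) = false := fun a b hab => by
    have := hc' a b hab
    rw [hs a b hab, act_t _ (h5 _ _) _ (hc a)] at this
    simpa using this
  have h := dfs2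
  replace h := A h (s 0 1) (h5 0 1)
  replace h := A h (s 0 2) (h5 0 2)
  replace h := A h (s 1 2) (h5 1 2)
  replace h := O h (K3 ![0, 1, 2, 3, 4, 5] (by decide))
  replace h := A h (s 0 3) (h5 0 3)
  replace h := A h (s 1 3) (h5 1 3)
  replace h := O h (K3 ![0, 1, 3, 2, 4, 5] (by decide))
  replace h := A h (s 2 3) (h5 2 3)
  replace h := O h (K3 ![0, 2, 3, 1, 4, 5] (by decide))
  replace h := O h (K3 ![1, 2, 3, 0, 4, 5] (by decide))
  replace h := O h ((K ![0, 1, 2, 3, 4, 5] (by decide)).2.1)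
  replace h := A h (s 0 4) (h5 0 4)
  replace h := A h (s 1 4) (h5 1 4)
  replace h := O h (K3 ![0, 1, 4, 2, 3, 5] (by decide))
  replace h := A h (s 2 4) (h5 2 4)
  replace h := O h (K3 ![0, 2, 4, 1, 3, 5] (by decide))
  replace h := O h (K3 ![1, 2, 4, 0, 3, 5] (by decide))
  replace h := O h ((K ![0, 1, 2, 4, 3, 5] (by decide)).2.1)
  replace h := A h (s 3 4) (h5 3 4)
  replace h := O h (K3 ![0, 3, 4, 1, 2, 5] (by decide))
  replace h := O h (K3 ![1, 3, 4, 0, 2, 5] (by decide))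
  replace h := O h (K3 ![2, 3, 4, 0, 1, 5] (by decide))
  replace h := O h ((K ![0, 1, 3, 4, 2, 5] (by decide)).2.1)
  replace h := O h ((K ![0, 2, 3, 4, 1, 5] (by decide)).2.1)
  replace h := O h ((K ![1, 2, 3, 4, 0, 5] (by decide)).2.1)
  replace h := A h (s 0 5) (h5 0 5)
  replace h := A h (s 1 5) (h5 1 5)
  replace h := O h (K3 ![0, 1, 5, 2, 3, 4] (by decide))
  replace h := A h (s 2 5) (h5 2 5)
  replace h := O h (K3 ![0, 2, 5, 1, 3, 4] (by decide))
  replace h := O h (K3 ![1, 2, 5, 0, 3, 4] (by decide))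
  replace h := O h ((K ![0, 1, 2, 5, 3, 4] (by decide)).2.1)
  replace h := A h (s 3 5) (h5 3 5)
  replace h := O h (K3 ![0, 3, 5, 1, 2, 4] (by decide))
  replace h := O h (K3 ![1, 3, 5, 0, 2, 4] (by decide))
  replace h := O h (K3 ![2, 3, 5, 0, 1, 4] (by decide))
  replace h := O h ((K ![0, 1, 3, 5, 2, 4] (by decide)).2.1)
  replace h := O h ((K ![0, 2, 3, 5, 1, 4] (by decide)).2.1)
  replace h := O h ((K ![1, 2, 3, 5, 0, 4] (by decide)).2.1)
  replace h := A h (s 4 5) (h5 4 5)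
  replace h := O h (K3 ![0, 4, 5, 1, 2, 3] (by decide))
  replace h := O h (K3 ![1, 4, 5, 0, 2, 3] (by decide))
  replace h := O h (K3 ![2, 4, 5, 0, 1, 3] (by decide))
  replace h := O h (K3 ![3, 4, 5, 0, 1, 2] (by decide))
  replace h := O h ((K ![0, 1, 4, 5, 2, 3] (by decide)).2.1)
  replace h := O h ((K ![0, 2, 4, 5, 1, 3] (by decide)).2.1)
  replace h := O h ((K ![0, 3, 4, 5, 1, 2] (by decide)).2.1)
  replace h := O h ((K ![1, 2, 4, 5, 0, 3] (by decide)).2.1)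
  replace h := O h ((K ![1, 3, 4, 5, 0, 2] (by decide)).2.1)
  replace h := O h ((K ![2, 3, 4, 5, 0, 1] (by decide)).2.1)
  replace h := A h (c 0) (hc 0)
  replace h := A h (c 1) (hc 1)
  replace h := O h (hv 0 1 (by decide))
  replace h := A h (c 2) (hc 2)
  replace h := O h (hv 0 2 (by decide))
  replace h := O h (hv 1 2 (by decide))
  replace h := A h (c 3) (hc 3)
  replace h := O h (hv 0 3 (by decide))
  replace h := O h (hv 1 3 (by decide))
  replace h := O h (hv 2 3 (by decide))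
  replace h := A h (c 4) (hc 4)
  replace h := O h (hv 0 4 (by decide))
  replace h := O h (hv 1 4 (by decide))
  replace h := O h (hv 2 4 (by decide))
  replace h := O h (hv 3 4 (by decide))
  replace h := A h (c 5) (hc 5)
  replace h := O h (hv 0 5 (by decide))
  replace h := O h (hv 1 5 (by decide))
  replace h := O h (hv 2 5 (by decide))
  replace h := O h (hv 3 5 (by decide))
  replace h := O h (hv 4 5 (by decide))
  exact absurd h (by decide)

def σ6 (a b : Fin 6) : Perm (Fin 5) := g ^ (b.1 + 5 * a.1)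

lemma σ6_sig : ∀ a b : Fin 6, a ≠ b → (∃ l < 5, σ6 a b = g ^ (l + 1)) ∧ σ6 b a = (σ6 a b)⁻¹ := by
  decide +kernel

lemma σ6_not : (al fun x0 => al fun x1 => act (σ6 0 1) x0 == x1 || (al fun x2 => act (σ6 0 2) x0 == x2 || (act (σ6 1 2) x1 == x2 || (al fun x3 => act (σ6 0 3) x0 == x3 || (act (σ6 1 3) x1 == x3 || (act (σ6 2 3) x2 == x3 || (al fun x4 => act (σ6 0 4) x0 == x4 || (act (σ6 1 4) x1 == x4 || (act (σ6 2 4) x2 == x4 || (act (σ6 3 4) x3 == x4 || (al fun x5 => act (σ6 0 5) x0 == x5 || (act (σ6 1 5) x1 == x5 || (act (σ6 2 5) x2 == x5 || (act (σ6 3 5) x3 == x5 || (act (σ6 4 5) x4 == x5 || (false)))))))))))))))) = true := by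
  decide +kernel

theorem result : ∃ (k n : ℕ) (S : Set (Perm (Fin k))) (G : SimpleGraph (Fin n)) (a b c : ℕ),
    1 ≤ k ∧ S.Nonempty ∧ (∀ π ∈ S, π⁻¹ ∈ S) ∧ a < b ∧ b < c ∧
    a ∈ Spec S G ∧ c ∈ Spec S G ∧ b ∉ Spec S G := by
  have h4 : ¬ Col ⊤ σ6 5 := fun ⟨c, h1, h2⟩ => by
    have h := σ6_not
    replace h := A h (c 0) (h1 0)
    replace h := A h (c 1) (h1 1)
    replace h := O h (beq_false_of_ne (h2 0 1 (by decide)))
    replace h := A h (c 2) (h1 2)
    replace h := O h (beq_false_of_ne (h2 0 2 (by decide)))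
    replace h := O h (beq_false_of_ne (h2 1 2 (by decide)))
    replace h := A h (c 3) (h1 3)
    replace h := O h (beq_false_of_ne (h2 0 3 (by decide)))
    replace h := O h (beq_false_of_ne (h2 1 3 (by decide)))
    replace h := O h (beq_false_of_ne (h2 2 3 (by decide)))
    replace h := A h (c 4) (h1 4)
    replace h := O h (beq_false_of_ne (h2 0 4 (by decide)))
    replace h := O h (beq_false_of_ne (h2 1 4 (by decide)))
    replace h := O h (beq_false_of_ne (h2 2 4 (by decide)))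
    replace h := O h (beq_false_of_ne (h2 3 4 (by decide)))
    replace h := A h (c 5) (h1 5)
    replace h := O h (beq_false_of_ne (h2 0 5 (by decide)))
    replace h := O h (beq_false_of_ne (h2 1 5 (by decide)))
    replace h := O h (beq_false_of_ne (h2 2 5 (by decide)))
    replace h := O h (beq_false_of_ne (h2 3 5 (by decide)))
    replace h := O h (beq_false_of_ne (h2 4 5 (by decide)))
    exact absurd h (by decide)
  have e1 : g ^ 3 = (g ^ 3)⁻¹ := by decide +kernel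
  have e2 : act (g ^ 3) 0 ≠ 0 := by decide +kernel
  refine ⟨5, 6, S0, ⊤, 1, 5, 6, by omega, ⟨_, 0, by omega, rfl⟩, ?_, by omega, by omega,
    ⟨fun _ _ => g ^ 3, fun _ _ _ => ⟨⟨2, by omega, rfl⟩, e1⟩,
      ⟨one_pos, fun _ => 0, fun _ => one_pos, fun _ _ _ => e2⟩, fun _ h => h.1⟩,
    ⟨σ6, σ6_sig, ⟨by omega, fun v => if v = 0 then 5 else act (g ^ v.1) (v - 1), by decide +kernel,
      by decide +kernel⟩, fun j hj => ?_⟩, ?_⟩
  · rintro _ ⟨l, hl, rfl⟩
    revert l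
    show ∀ l < 5, ∃ m < 5, (g ^ (l + 1))⁻¹ = g ^ (m + 1)
    decide +kernel
  · by_contra hlt
    obtain ⟨-, c, h1, h2⟩ := hj
    exact h4 ⟨c, fun v => by have := h1 v; omega, h2⟩
  · rintro ⟨σ, h1, h2, h3⟩
    exact main h1 (fun h => by have := h3 ⟨by omega, h⟩; omega) h2.2

end Pool.Agent.Results.MP_3ca1b2_co.Counter
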